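import Pool.Agent.W169.HF.DefsB
import Pool.Agent.W806.HF.Rep

/-!
# Project HF, part HLO: two-sided bound for the heat flow far to the right
-/

set_option autoImplicit false

open Complex MeasureTheory Filter Topology Set
open scoped ComplexConjugate

namespace Pool.Agent.W366.HF

open Pool.Agent.W169.HF

theorem slow_shift {f : ℂ → ℂ} (hf : Slow f) (c : ℂ) : Slow (fun w => f (w + c)) := by
  obtain ⟨hd, hs⟩ := hf
  refine ⟨hd.comp (differentiable_id.add_const c), fun δ hδ => ?_⟩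
  obtain ⟨K, hK, hb⟩ := hs (δ / 2) (by positivity)
  refine ⟨K * Real.exp (δ * ‖c‖ ^ 2), by positivity, fun z => ?_⟩
  refine (hb (z + c)).trans ?_
  rw [mul_assoc, ← Real.exp_add]
  refine mul_le_mul_of_nonneg_left (Real.exp_le_exp.2 ?_) hK.le
  have h1 := norm_add_le z c
  have h2 : ‖z + c‖ ^ 2 ≤ 2 * ‖z‖ ^ 2 + 2 * ‖c‖ ^ 2 := by
    have h3 : ‖z + c‖ ^ 2 ≤ (‖z‖ + ‖c‖) ^ 2 := pow_le_pow_left₀ (norm_nonneg _) h1 2
    nlinarith [sq_nonneg (‖z‖ - ‖c‖)]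
  nlinarith

theorem ud_shift {K ϑ0 ℓ G R1 v : ℝ} {f : ℂ → ℂ} (hK : 1 ≤ K) (hv : |v| ≤ R1)
    (h : UD K ϑ0 ℓ G f) : UD (2 * K * (1 + R1 ^ 2)) ϑ0 ℓ G (fun w => f (w + v * I)) := by
  have hre : ∀ u : ℂ, (u + v * I).re = u.re := fun u => by simp
  have hn : ∀ u : ℂ, K * (1 + ‖u + v * I‖ ^ 2) ≤ 2 * K * (1 + R1 ^ 2) * (1 + ‖u‖ ^ 2) := by
    intro u
    have h0 : ‖((v : ℂ) * I)‖ = |v| := by simp
    have h1 : ‖u + v * I‖ ≤ ‖u‖ + R1 := (norm_add_le _ _).trans (by rw [h0]; linarith)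
    have h3 : ‖u + v * I‖ ^ 2 ≤ (‖u‖ + R1) ^ 2 := pow_le_pow_left₀ (norm_nonneg _) h1 2
    have h4 : (‖u‖ + R1) ^ 2 ≤ 2 * ‖u‖ ^ 2 + 2 * R1 ^ 2 := by
      nlinarith [sq_nonneg (‖u‖ - R1)]
    have h5 : 1 + ‖u + v * I‖ ^ 2 ≤ 2 * (1 + R1 ^ 2) * (1 + ‖u‖ ^ 2) := by
      nlinarith [mul_nonneg (sq_nonneg R1) (sq_nonneg ‖u‖)]
    calc K * (1 + ‖u + v * I‖ ^ 2) ≤ K * (2 * (1 + R1 ^ 2) * (1 + ‖u‖ ^ 2)) :=
          mul_le_mul_of_nonneg_left h5 (by linarith)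
      _ = _ := by ring
  refine ⟨slow_shift h.slow _, ?_, h.hG, fun u => ?_, fun u hu => ?_⟩
  · obtain ⟨ε, hε, hfe⟩ := h.fe
    refine ⟨ε, hε, fun u => ?_⟩
    have h1 : -conj (u + v * I) = -conj u + v * I := by
      simp only [map_add, map_mul, Complex.conj_ofReal, Complex.conj_I]
      ring
    change f (u + v * I) = ε * conj (f (-conj u + v * I))
    rw [hfe, h1]
  · refine (h.up (u + v * I)).trans ?_
    rw [hre]
    refine mul_le_mul_of_nonneg_left (Real.exp_le_exp.2 ?_) h.hG.le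
    linarith [hn u]
  · refine le_trans ?_ (h.lo (u + v * I) (by rw [hre]; exact hu))
    rw [hre]
    refine mul_le_mul_of_nonneg_left (Real.exp_le_exp.2 ?_) h.hG.le
    linarith [hn u]

theorem heat_shift (t : ℝ) (f : ℂ → ℂ) (x : ℝ) (c : ℂ) :
    heat t f (x + c) = heat t (fun w => f (w + c)) x := by
  unfold heat
  congr 2
  funext v
  congr 2
  ring

theorem rep0 {f : ℂ → ℂ} (hf : Slow f) {ε : ℂ} (hfe : ∀ u : ℂ, f u = ε * conj (f (-conj u)))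
    {t : ℝ} (ht : 0 < t) (x : ℝ) :
    heat t f x = ((1 / Real.sqrt (4 * Real.pi * t) * Real.exp (-(x ^ 2 / (4 * t))) : ℝ) : ℂ) *
      (J t f ((x / (2 * t) : ℝ) : ℂ) + ε * conj (J t f ((-(x / (2 * t)) : ℝ) : ℂ))) := by
  have h := Pool.Agent.W806.HF.rep (fun s => f (s + (-1 / 2))) ε (slow_shift hf _) (fun s => by
    change f (s + -1 / 2) = ε * conj (f (1 - conj s + -1 / 2))
    rw [hfe]
    congr 3
    simp only [map_add, map_neg, map_div₀, map_one, map_ofNat]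
    ring) t 0 x ht
  have h1 : heat t (fun s => f (s + (-1 / 2))) (1 / 2 + (x : ℂ) + ((0 : ℝ) : ℂ) * I) =
      heat t f x := by
    unfold heat
    congr 2
    funext v
    congr 2
    push_cast
    ring
  have h2 : ∀ x : ℝ, hh t (fun u : ℝ => (fun s => f (s + (-1 / 2)))
      (1 / 2 + (u : ℂ) + ((0 : ℝ) : ℂ) * I)) x = J t f ((x / (2 * t) : ℝ) : ℂ) := by
    intro x
    unfold hh J
    congr 1
    funext u
    have e1 : (1 / 2 + (u : ℂ) + ((0 : ℝ) : ℂ) * I + (-1 / 2) : ℂ) = u := by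
      push_cast
      ring
    dsimp only
    rw [e1]
    push_cast
    congr 2
    ring
  rw [h1, h2, h2] at h
  rw [h]
  congr 5
  ring_nf

theorem normJ {t : ℝ} {f : ℂ → ℂ} (a β : ℝ) (hab : a ≤ β)
    (hi : IntegrableOn (fun r : ℝ => Real.exp (-(r ^ 2 / (4 * t)) + β * r) * ‖f r‖) (Ioi 0)) :
    ‖J t f (a : ℂ)‖ ≤ ∫ r in Ioi (0 : ℝ), Real.exp (-(r ^ 2 / (4 * t)) + β * r) * ‖f r‖ := by
  unfold J
  refine (norm_integral_le_integral_norm _).trans ?_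
  refine integral_mono_of_nonneg (Eventually.of_forall fun r => norm_nonneg _) hi ?_
  filter_upwards [self_mem_ae_restrict measurableSet_Ioi] with r hr
  have hr' : 0 < r := hr
  rw [norm_mul, Complex.norm_exp]
  refine mul_le_mul_of_nonneg_right (Real.exp_le_exp.2 ?_) (norm_nonneg _)
  have e1 : (-((r : ℂ) ^ 2 / (4 * t)) + (a : ℂ) * r) = ((-(r ^ 2 / (4 * t)) + a * r : ℝ) : ℂ) := by
    push_cast
    ring
  rw [e1, Complex.ofReal_re]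
  nlinarith

/-- The constant in front of the integral. -/
theorem const_bd {ℓ t g1 X : ℝ} (hg1 : 0 < g1) (hg1' : g1 ≤ 1) (hℓ : 8 ≤ ℓ) (hℓX : 7 * X ≤ ℓ)
    (hX : 1 ≤ X) (ht : 0 < t) (h1 : g1 ≤ 2 * t * ℓ) (h2 : 2 * t * ℓ ≤ X) :
    1 ≤ 1 / Real.sqrt (4 * Real.pi * t) ∧ 1 / Real.sqrt (4 * Real.pi * t) ≤ ℓ / g1 := by
  have hpi := Real.pi_gt_three
  have hpi2 := Real.pi_lt_d2
  have hp : 0 < 4 * Real.pi * t := by positivity
  have hs : 0 < Real.sqrt (4 * Real.pi * t) := Real.sqrt_pos.2 hp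
  have hℓ0 : 0 < ℓ := by linarith
  constructor
  · rw [le_div_iff₀ hs, one_mul]
    rw [Real.sqrt_le_one]
    have h3 : 4 * Real.pi * t * ℓ ≤ 1 * ℓ := by
      calc 4 * Real.pi * t * ℓ = 2 * Real.pi * (2 * t * ℓ) := by ring
        _ ≤ 2 * Real.pi * X := by gcongr
        _ ≤ 7 * X := by nlinarith
        _ ≤ 1 * ℓ := by linarith
    exact le_of_mul_le_mul_right h3 hℓ0
  · rw [div_le_div_iff₀ hs hg1, one_mul]
    have h3 : g1 / ℓ ≤ Real.sqrt (4 * Real.pi * t) := by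
      apply Real.le_sqrt_of_sq_le
      rw [div_pow, div_le_iff₀ (by positivity)]
      calc g1 ^ 2 ≤ 1 * g1 := by nlinarith
        _ ≤ 1 * (2 * t * ℓ) := by gcongr
        _ ≤ (2 * Real.pi * ℓ) * (2 * t * ℓ) := by
            apply mul_le_mul_of_nonneg_right _ (by positivity)
            nlinarith
        _ = 4 * Real.pi * t * ℓ ^ 2 := by ring
    rwa [div_le_iff₀ hℓ0, mul_comm] at h3

theorem hlo_of (h1 : S_PROF) (h2 : S_JU) (h3 : S_JL) : S_HLO := by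
  intro K ϑ0 g X κ R1 hK h0 h02 hg hX hκ hR1
  obtain ⟨g1, hg1d⟩ : ∃ g1, g1 = min g 1 := ⟨_, rfl⟩
  have hg1 : 0 < g1 := by rw [hg1d]; exact lt_min hg one_pos
  have hg1' : g1 ≤ 1 := by rw [hg1d]; exact min_le_right _ _
  have hg1g : g1 ≤ g := by rw [hg1d]; exact min_le_left _ _
  obtain ⟨K', hK'd⟩ : ∃ K', K' = 2 * K * (1 + R1 ^ 2) := ⟨_, rfl⟩
  have hK' : 1 ≤ K' := by
    rw [hK'd]
    nlinarith [sq_nonneg R1]
  obtain ⟨Y, hYd⟩ : ∃ Y, Y = max 3 R1 := ⟨_, rfl⟩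
  have hY : 3 ≤ Y := by rw [hYd]; exact le_max_left _ _
  have hYR : R1 ≤ Y := by rw [hYd]; exact le_max_right _ _
  obtain ⟨κ', hκ'd⟩ : ∃ κ', κ' = min (κ / 8) (1 / 32) := ⟨_, rfl⟩
  have hκ' : 0 < κ' := by rw [hκ'd]; exact lt_min (by positivity) (by norm_num)
  have hκ'1 : κ' ≤ κ / 8 := by rw [hκ'd]; exact min_le_left _ _
  have hκ'2 : κ' ≤ 1 / 32 := by rw [hκ'd]; exact min_le_right _ _
  obtain ⟨ζ0, hζ0, h3'⟩ := h3 K' ϑ0 (ϑ0 + 1 / 4) g1 X Y hK' h0 h02 (by linarith) (by linarith)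
    hg1 hg1' hX hY
  obtain ⟨ζ, hζd⟩ : ∃ ζ, ζ = min ζ0 (min (κ / (4 * X)) (1 / (16 * X))) := ⟨_, rfl⟩
  have hX0 : 0 < X := by linarith
  have hζ : 0 < ζ := by
    rw [hζd]; exact lt_min hζ0 (lt_min (by positivity) (by positivity))
  have hζ1 : ζ ≤ ζ0 := by rw [hζd]; exact min_le_left _ _
  have hζ2 : ζ * X ≤ κ / 4 := by
    have : ζ ≤ κ / (4 * X) := by
      rw [hζd]; exact (min_le_right _ _).trans (min_le_left _ _)
    rw [le_div_iff₀ (by positivity)] at this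
    linarith
  have hζ3 : ζ * X ≤ 1 / 16 := by
    have : ζ ≤ 1 / (16 * X) := by
      rw [hζd]; exact (min_le_right _ _).trans (min_le_right _ _)
    rw [le_div_iff₀ (by positivity)] at this
    linarith
  have hζ4 : ζ ≤ 1 := by
    have := le_mul_of_one_le_right hζ.le hX
    linarith
  have hζ5 : ζ ^ 2 * X ≤ ζ * X := by
    have : ζ ^ 2 ≤ ζ := by
      rw [sq]
      exact mul_le_of_le_one_left hζ.le hζ4
    exact mul_le_mul_of_nonneg_right this hX0.le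
  obtain ⟨κ0, ℓJL, hκ0, hJL⟩ := h3' ζ hζ hζ1
  obtain ⟨ℓJU, hJU⟩ := h2 K' ϑ0 (ϑ0 + 1 / 4) g1 X Y κ' hK' h0 h02 (by linarith) (by linarith)
    hg1 hg1' hX hY hκ'
  obtain ⟨Ra, ℓa, hRa, hPa⟩ := h1 K' ϑ0 ϑ0 (1 / 4) κ0 (2 * X + 2 * Y + 4) hK' h0 h02
    (by linarith) le_rfl (by norm_num) (by norm_num) hκ0 (by linarith)
  obtain ⟨Rb, ℓb, hRb, hPb⟩ := h1 K' ϑ0 ϑ0 (1 / 4) κ' (2 * X + 2 * Y + 4) hK' h0 h02
    (by linarith) le_rfl (by norm_num) (by norm_num) hκ' (by linarith)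
  refine ⟨max (max (max ℓa ℓb) (max ℓJL ℓJU))
    (max (max 8 (2 / κ)) (max (7 * X) (8 / (κ ^ 2 * g1)))),
    fun ℓ G t f hℓ hUD ht hgt htX u hu1 hu2 hu3 => ?_⟩
  simp only [max_le_iff] at hℓ
  obtain ⟨⟨⟨hℓa, hℓb⟩, hℓJL, hℓJU⟩, ⟨hℓ8, hℓκ⟩, hℓX, hℓg⟩ := hℓ
  have hℓ0 : 0 < ℓ := by linarith
  have hU := ud_shift hK hu3 hUD
  rw [← hK'd] at hU
  have hheat := heat_shift t f u.re ((u.im : ℂ) * I)
  rw [Complex.re_add_im] at hheat
  obtain ⟨fv, hfv⟩ : ∃ fv : ℂ → ℂ, fv = fun w => f (w + (u.im : ℂ) * I) := ⟨_, rfl⟩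
  rw [← hfv] at hU hheat
  have hnz : ∀ w : ℂ, ϑ0 < w.re → fv w ≠ 0 := by
    intro w hw hw0
    have h4 := hU.lo w hw.le
    rw [hw0, norm_zero] at h4
    have h5 : 0 < G * Real.exp (ℓ * w.re - K' * (1 + ‖w‖ ^ 2)) :=
      mul_pos hUD.hG (Real.exp_pos _)
    linarith
  have Pa := hPa ℓ G fv hℓa hU (fun w hw _ => hnz w hw)
  have Pb := hPb ℓ G fv hℓb hU (fun w hw _ => hnz w hw)
  obtain ⟨x, hxd⟩ : ∃ x, x = u.re := ⟨_, rfl⟩
  rw [← hxd] at hheat hu1 hu2 ⊢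
  obtain ⟨ε, hε, hfe⟩ := hU.fe
  have hrep := rep0 hU.slow hfe ht x
  have hG := hUD.hG
  have ht2 : 2 * t ≠ 0 := by positivity
  -- the bounds for the two integrals
  have hα : 2 * t * (x / (2 * t)) = x := by field_simp
  have hα1 : 2 * t * ((ϑ0 + 1 / 4) / (2 * t)) = ϑ0 + 1 / 4 := by field_simp
  have u1 := hJU ℓ G t fv hℓJU hU Pb ht (hg1g.trans hgt) htX (x / (2 * t))
    (by rw [hα]; linarith) (Or.inr (by rw [hα]; linarith))
  have u2 := hJU ℓ G t fv hℓJU hU Pb ht (hg1g.trans hgt) htX ((ϑ0 + 1 / 4) / (2 * t))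
    (by rw [hα1]; linarith) (Or.inr (by rw [hα1]))
  have l1 := hJL ℓ G t fv hℓJL hU Pa ht (hg1g.trans hgt) htX ((x / (2 * t) : ℝ) : ℂ)
    (by rw [Complex.ofReal_im, abs_zero]; positivity)
    (by rw [Complex.ofReal_re, hα]; linarith)
    (Or.inr (by rw [Complex.ofReal_re, hα]; linarith))
  rw [Complex.ofReal_re] at l1
  have v1 := (normJ (x / (2 * t)) (x / (2 * t)) le_rfl u1.1).trans u1.2
  have hx0 : 0 < x := by linarith
  have v2 := (normJ (-(x / (2 * t))) ((ϑ0 + 1 / 4) / (2 * t)) (by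
    have : 0 ≤ x / (2 * t) := by positivity
    have : 0 ≤ (ϑ0 + 1 / 4) / (2 * t) := by positivity
    linarith) u2.1).trans u2.2
  have hsq : ∀ y : ℝ, t * (ℓ + y / (2 * t)) ^ 2 = t * ℓ ^ 2 + ℓ * y + y ^ 2 / (4 * t) := by
    intro y
    field_simp
    ring
  rw [hsq] at v1 v2 l1
  obtain ⟨M, hMd⟩ : ∃ M, M = G * Real.exp (t * ℓ ^ 2) * Real.exp (ℓ * x) := ⟨_, rfl⟩
  have hM : 0 < M := by rw [hMd]; positivity
  obtain ⟨z1, hz1⟩ : ∃ z1 : ℂ, z1 = ((Real.exp (-(x ^ 2 / (4 * t))) : ℝ) : ℂ) *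
    J t fv ((x / (2 * t) : ℝ) : ℂ) := ⟨_, rfl⟩
  obtain ⟨z2, hz2⟩ : ∃ z2 : ℂ, z2 = ((Real.exp (-(x ^ 2 / (4 * t))) : ℝ) : ℂ) *
    (ε * conj (J t fv ((-(x / (2 * t)) : ℝ) : ℂ))) := ⟨_, rfl⟩
  have hh : heat t f u = ((1 / Real.sqrt (4 * Real.pi * t) : ℝ) : ℂ) * (z1 + z2) := by
    rw [hheat, hrep, hz1, hz2]
    push_cast
    ring
  have n1 : ‖z1‖ = Real.exp (-(x ^ 2 / (4 * t))) * ‖J t fv ((x / (2 * t) : ℝ) : ℂ)‖ := by
    rw [hz1, norm_mul, Complex.norm_real, Real.norm_of_nonneg (Real.exp_pos _).le]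
  have n2 : ‖z2‖ = Real.exp (-(x ^ 2 / (4 * t))) * ‖J t fv ((-(x / (2 * t)) : ℝ) : ℂ)‖ := by
    rw [hz2, norm_mul, Complex.norm_real, Real.norm_of_nonneg (Real.exp_pos _).le, norm_mul, hε,
      one_mul, Complex.norm_conj]
  have m1 : ‖z1‖ ≤ M * Real.exp (2 * κ' * ℓ) := by
    rw [n1, hMd]
    calc _ ≤ Real.exp (-(x ^ 2 / (4 * t))) *
          (G * Real.exp (t * ℓ ^ 2 + ℓ * x + x ^ 2 / (4 * t) + 2 * κ' * ℓ)) :=
          mul_le_mul_of_nonneg_left v1 (Real.exp_pos _).le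
      _ = G * (Real.exp (-(x ^ 2 / (4 * t))) *
          Real.exp (t * ℓ ^ 2 + ℓ * x + x ^ 2 / (4 * t) + 2 * κ' * ℓ)) := by ring
      _ = G * Real.exp (t * ℓ ^ 2 + ℓ * x + 2 * κ' * ℓ) := by
          rw [← Real.exp_add]; congr 2; ring
      _ = _ := by rw [Real.exp_add, Real.exp_add]; ring
  have m2 : M * Real.exp (-(ζ ^ 2 * X * ℓ)) ≤ ‖z1‖ := by
    rw [n1, hMd]
    calc G * Real.exp (t * ℓ ^ 2) * Real.exp (ℓ * x) * Real.exp (-(ζ ^ 2 * X * ℓ))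
        = G * Real.exp (t * ℓ ^ 2 + ℓ * x + -(ζ ^ 2 * X * ℓ)) := by
          rw [Real.exp_add, Real.exp_add]; ring
      _ = G * (Real.exp (-(x ^ 2 / (4 * t))) *
          Real.exp (t * ℓ ^ 2 + ℓ * x + x ^ 2 / (4 * t) - ζ ^ 2 * X * ℓ)) := by
          rw [← Real.exp_add]; congr 2; ring
      _ = Real.exp (-(x ^ 2 / (4 * t))) *
          (G * Real.exp (t * ℓ ^ 2 + ℓ * x + x ^ 2 / (4 * t) - ζ ^ 2 * X * ℓ)) := by ring
      _ ≤ _ := mul_le_mul_of_nonneg_left l1 (Real.exp_pos _).le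
  have m3 : ‖z2‖ ≤ M * Real.exp (-(ℓ / 4) + 2 * κ' * ℓ) := by
    rw [n2, hMd]
    calc _ ≤ Real.exp (-(x ^ 2 / (4 * t))) *
          (G * Real.exp (t * ℓ ^ 2 + ℓ * (ϑ0 + 1 / 4) + (ϑ0 + 1 / 4) ^ 2 / (4 * t) +
            2 * κ' * ℓ)) :=
          mul_le_mul_of_nonneg_left v2 (Real.exp_pos _).le
      _ = G * Real.exp (-(x ^ 2 / (4 * t)) + (t * ℓ ^ 2 + ℓ * (ϑ0 + 1 / 4) +
            (ϑ0 + 1 / 4) ^ 2 / (4 * t) + 2 * κ' * ℓ)) := by
          rw [Real.exp_add (-(x ^ 2 / (4 * t)))]; ring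
      _ ≤ G * Real.exp (t * ℓ ^ 2 + ℓ * x + (-(ℓ / 4) + 2 * κ' * ℓ)) := by
          refine mul_le_mul_of_nonneg_left (Real.exp_le_exp.2 ?_) hG.le
          have e1 : (ϑ0 + 1 / 4) ^ 2 / (4 * t) ≤ x ^ 2 / (4 * t) := by
            apply div_le_div_of_nonneg_right _ (by positivity)
            apply pow_le_pow_left₀ (by positivity)
            linarith
          have e2 : ℓ * (ϑ0 + 1 / 4) ≤ ℓ * x - ℓ / 4 := by
            calc ℓ * (ϑ0 + 1 / 4) ≤ ℓ * (x - 1 / 4) :=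
                  mul_le_mul_of_nonneg_left (by linarith) hℓ0.le
              _ = _ := by ring
          linarith
      _ = _ := by rw [Real.exp_add, Real.exp_add]; ring
  obtain ⟨c1, c2⟩ := const_bd hg1 hg1' hℓ8 hℓX hX ht (hg1g.trans hgt) htX
  have hc0 : 0 < 1 / Real.sqrt (4 * Real.pi * t) := by linarith
  have hnorm : ‖heat t f u‖ = 1 / Real.sqrt (4 * Real.pi * t) * ‖z1 + z2‖ := by
    rw [hh, norm_mul, Complex.norm_real, Real.norm_of_nonneg hc0.le]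
  rw [hnorm]
  have hexp1 : Real.exp (-1) ≤ 1 / 2 := by
    have := Real.exp_neg_one_lt_d9
    linarith
  constructor
  · -- lower bound
    have w1 : ‖z1‖ - ‖z2‖ ≤ ‖z1 + z2‖ := by
      have := norm_sub_norm_le z1 (-z2)
      rwa [norm_neg, sub_neg_eq_add] at this
    have w2 : Real.exp (-(ℓ / 4) + 2 * κ' * ℓ) ≤ 1 / 2 * Real.exp (-(ζ ^ 2 * X * ℓ)) := by
      calc Real.exp (-(ℓ / 4) + 2 * κ' * ℓ) ≤ Real.exp (-1 + -(ζ ^ 2 * X * ℓ)) := by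
            refine Real.exp_le_exp.2 ?_
            have e1 : ζ ^ 2 * X * ℓ ≤ 1 / 16 * ℓ :=
              mul_le_mul_of_nonneg_right (hζ5.trans hζ3) hℓ0.le
            have e2 : 2 * κ' * ℓ ≤ 1 / 16 * ℓ :=
              mul_le_mul_of_nonneg_right (by linarith) hℓ0.le
            linarith
        _ = Real.exp (-1) * Real.exp (-(ζ ^ 2 * X * ℓ)) := Real.exp_add _ _
        _ ≤ _ := mul_le_mul_of_nonneg_right hexp1 (Real.exp_pos _).le
    have w3 : Real.exp (-(κ * ℓ)) ≤ 1 / 2 * Real.exp (-(ζ ^ 2 * X * ℓ)) := by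
      calc Real.exp (-(κ * ℓ)) ≤ Real.exp (-1 + -(ζ ^ 2 * X * ℓ)) := by
            refine Real.exp_le_exp.2 ?_
            have e1 : ζ ^ 2 * X * ℓ ≤ κ / 4 * ℓ :=
              mul_le_mul_of_nonneg_right (hζ5.trans hζ2) hℓ0.le
            have e2 : 2 ≤ ℓ * κ := by rwa [div_le_iff₀ hκ] at hℓκ
            linarith
        _ = Real.exp (-1) * Real.exp (-(ζ ^ 2 * X * ℓ)) := Real.exp_add _ _
        _ ≤ _ := mul_le_mul_of_nonneg_right hexp1 (Real.exp_pos _).le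
    calc G * Real.exp (t * ℓ ^ 2) * Real.exp (ℓ * x - κ * ℓ)
        = M * Real.exp (-(κ * ℓ)) := by
          rw [hMd, sub_eq_add_neg, Real.exp_add]; ring
      _ ≤ M * (1 / 2 * Real.exp (-(ζ ^ 2 * X * ℓ))) := by gcongr
      _ = M * Real.exp (-(ζ ^ 2 * X * ℓ)) - M * (1 / 2 * Real.exp (-(ζ ^ 2 * X * ℓ))) := by ring
      _ ≤ M * Real.exp (-(ζ ^ 2 * X * ℓ)) - M * Real.exp (-(ℓ / 4) + 2 * κ' * ℓ) := by gcongr
      _ ≤ ‖z1‖ - ‖z2‖ := by linarith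
      _ ≤ 1 * ‖z1 + z2‖ := by linarith
      _ ≤ _ := by gcongr
  · -- upper bound
    have w1 : ‖z1 + z2‖ ≤ M * Real.exp (2 * κ' * ℓ) * 2 := by
      have e1 : M * Real.exp (-(ℓ / 4) + 2 * κ' * ℓ) ≤ M * Real.exp (2 * κ' * ℓ) := by
        gcongr
        linarith
      linarith [norm_add_le z1 z2]
    have w2 : ℓ / g1 * (Real.exp (2 * κ' * ℓ) * 2) ≤ Real.exp (κ * ℓ) := by
      have e1 : ℓ / g1 * 2 ≤ Real.exp (3 * κ / 4 * ℓ) := by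
        have e2 := Real.quadratic_le_exp_of_nonneg (by positivity : 0 ≤ 3 * κ / 4 * ℓ)
        have e3 : ℓ / g1 * 2 ≤ (3 * κ / 4 * ℓ) ^ 2 / 2 := by
          rw [div_le_iff₀ (by positivity)] at hℓg
          rw [div_mul_eq_mul_div, div_le_iff₀ hg1]
          have e4 : 8 * ℓ ≤ ℓ * (κ ^ 2 * g1) * ℓ := mul_le_mul_of_nonneg_right hℓg hℓ0.le
          have e6 : (3 * κ / 4 * ℓ) ^ 2 / 2 * g1 = 9 / 32 * (ℓ * (κ ^ 2 * g1) * ℓ) := by ring
          rw [e6]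
          linarith
        have e5 : 0 ≤ 3 * κ / 4 * ℓ := by positivity
        linarith
      calc ℓ / g1 * (Real.exp (2 * κ' * ℓ) * 2) = (ℓ / g1 * 2) * Real.exp (2 * κ' * ℓ) := by ring
        _ ≤ Real.exp (3 * κ / 4 * ℓ) * Real.exp (κ / 4 * ℓ) := by
            gcongr
            linarith
        _ = Real.exp (κ * ℓ) := by rw [← Real.exp_add]; congr 1; ring
    calc 1 / Real.sqrt (4 * Real.pi * t) * ‖z1 + z2‖
        ≤ ℓ / g1 * (M * Real.exp (2 * κ' * ℓ) * 2) := by gcongr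
      _ = M * (ℓ / g1 * (Real.exp (2 * κ' * ℓ) * 2)) := by ring
      _ ≤ M * Real.exp (κ * ℓ) := by gcongr
      _ = _ := by rw [hMd, Real.exp_add]; ring

end Pool.Agent.W366.HF
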